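import Pool.Agent.MP_66cee2_co.Q2.Spec
import Pool.Agent.MP_66cee2_co.Q.Fold

namespace Pool.Agent.MP_66cee2_co.Q2

open Set Metric Module Pool.Agent.MP_66cee2_co.X Pool.Agent.MP_66cee2_co.Q
open scoped RealInnerProductSpace

namespace EqR

theorem perpv {d k : ℕ} (M : Submodule ℝ (E d)) (v : E d) (h : k + 1 ≤ finrank ℝ M) :
    k ≤ finrank ℝ (M ⊓ (ℝ ∙ v)ᗮ : Submodule ℝ (E d)) := by
  have h1 : finrank ℝ (ℝ ∙ v) ≤ 1 := (finrank_span_le_card ({v} : Set (E d))).trans (by simp)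
  have h2 := Submodule.finrank_add_finrank_orthogonal (ℝ ∙ v)
  have h3 := Submodule.finrank_sup_add_finrank_inf_eq M (ℝ ∙ v)ᗮ
  have h4 := Submodule.finrank_le (M ⊔ (ℝ ∙ v)ᗮ)
  omega

theorem nsq {d : ℕ} {x y : E d} (h : ⟪x, y⟫ = 0) (a b : ℝ) :
    ‖a • x + b • y‖ ^ 2 = a ^ 2 * ‖x‖ ^ 2 + b ^ 2 * ‖y‖ ^ 2 := by
  rw [norm_add_sq_real, real_inner_smul_left, real_inner_smul_right, h, norm_smul, norm_smul,
    mul_pow, mul_pow, Real.norm_eq_abs, Real.norm_eq_abs, sq_abs, sq_abs]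
  ring

theorem one_of {d : ℕ} {x : E d} (h : ‖x‖ ^ 2 = 1) : ‖x‖ = 1 :=
  (sq_eq_sq₀ (norm_nonneg _) zero_le_one).1 (by rw [h, one_pow])

end EqR

theorem sEq : SEq := by
  rintro d o u M ρ η hM ρ0 ρ1 a - _ ⟨w, wM, κ, w1, w2, κ1, κ2, rfl⟩ ab hab
  obtain ⟨δ, rfl⟩ : ∃ δ, a = o + κ • w + δ := ⟨a - (o + κ • w), by abel⟩
  have δ0 : 0 < ‖δ‖ := norm_pos_iff.2 fun h => ab (by rw [h, add_zero])
  have κ0 : 0 < κ := by linarith
  have R1 : 1 / 2 < κ ^ 2 * ρ ^ 2 := by nlinarith [mul_nonneg (sub_nonneg.2 κ1) (sq_nonneg ρ)]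
  obtain ⟨s, hs'⟩ : ∃ s, s = (2 * (κ ^ 2 * ρ ^ 2))⁻¹ := ⟨_, rfl⟩
  have hs : s * (2 * (κ ^ 2 * ρ ^ 2)) = 1 := by rw [hs']; exact inv_mul_cancel₀ (by positivity)
  have s0 : 0 < s := by rw [hs']; positivity
  have s1 : s < 1 := by nlinarith
  obtain ⟨r, r0, hr⟩ : ∃ r : ℝ, 0 < r ∧ r ^ 2 = 1 - s / 2 :=
    ⟨√(1 - s / 2), Real.sqrt_pos.2 (by linarith), Real.sq_sqrt (by linarith)⟩
  obtain ⟨c, c0, hc⟩ : ∃ c : ℝ, 0 < c ∧ κ * c = r := ⟨r / κ, by positivity, by field_simp⟩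
  obtain ⟨j, hj'⟩ : ∃ j, j = (2 * r ^ 2)⁻¹ := ⟨_, rfl⟩
  have hj : j * (2 * r ^ 2) = 1 := by rw [hj']; exact inv_mul_cancel₀ (by positivity)
  have j0 : 0 < j := by rw [hj']; positivity
  have j1 : j < 1 := by nlinarith
  obtain ⟨β, β0, hβ⟩ : ∃ β : ℝ, 0 ≤ β ∧ β ^ 2 = 1 - (1 - j) ^ 2 :=
    ⟨√(1 - (1 - j) ^ 2), Real.sqrt_nonneg _, Real.sq_sqrt (by nlinarith)⟩
  have hN := EqR.perpv (k := 2) M w hM
  obtain ⟨e, eN, e1, e2⟩ := Foldx.pole u _ (le_trans (by norm_num) hN)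
  obtain ⟨f, ⟨fN, fe⟩, f1, f2⟩ := Foldx.pole (-δ) _ (EqR.perpv (k := 1) _ e hN)
  have fδ : ⟪f, δ⟫ ≤ 0 := by
    have := f2 f ⟨fN, fe⟩ real_inner_self_nonneg
    rw [inner_neg_right] at this
    linarith
  have ef : ⟪e, f⟫ = 0 := Submodule.mem_orthogonal_singleton_iff_inner_right.1 fe
  have fe' : ⟪f, e⟫ = 0 := by rw [real_inner_comm, ef]
  have pt : ∀ g ∈ M ⊓ (ℝ ∙ w)ᗮ, ‖g‖ = 1 → 0 ≤ ⟪g, e⟫ →
      o + κ • w + ((-s * κ) • w + r • g) ∈ Shell o u M ρ η ∧ ‖(-s * κ) • w + r • g‖ ^ 2 = 1 :=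
    fun g hg g1 g2 => by
    have wg : ⟪w, g⟫ = 0 := Submodule.mem_orthogonal_singleton_iff_inner_right.1 hg.2
    refine ⟨⟨(1 - s) • w + c • g, M.add_mem (M.smul_mem _ wM) (M.smul_mem _ hg.1), κ, ?_, ?_,
      κ1, κ2, ?_⟩, ?_⟩
    · refine (sq_eq_sq₀ (norm_nonneg _) ρ0.le).1 (mul_left_cancel₀ (pow_pos κ0 2).ne' ?_)
      rw [EqR.nsq wg, w1, g1]
      linear_combination (κ * c + r) * hc + hr + (s / 2 - 1) * hs
    · rw [inner_add_left, real_inner_smul_left, real_inner_smul_left]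
      exact add_nonneg (mul_nonneg (by linarith) w2) (mul_nonneg c0.le (e2 g hg g2))
    · rw [← hc]
      module
    · rw [EqR.nsq wg, w1, g1]
      linear_combination hr + s / 2 * hs
  obtain ⟨y1, y2⟩ := pt f fN f1 fe'.ge
  obtain ⟨z1, z2⟩ := pt ((1 - j) • f + β • e)
    (Submodule.add_mem _ (Submodule.smul_mem _ _ fN) (Submodule.smul_mem _ _ eN))
    (EqR.one_of (by rw [EqR.nsq fe', f1, e1]; linear_combination hβ))
    (by
      rw [inner_add_left, real_inner_smul_left, real_inner_smul_left, fe', mul_zero, zero_add]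
      exact mul_nonneg β0 real_inner_self_nonneg)
  refine ⟨_, y1, _, z1, ?_, ?_, EqR.one_of ?_, ?_⟩
  · rw [add_sub_cancel_left]
    exact EqR.one_of y2
  · rw [add_sub_cancel_left]
    exact EqR.one_of z2
  · rw [show o + κ • w + ((-s * κ) • w + r • f) -
      (o + κ • w + ((-s * κ) • w + r • ((1 - j) • f + β • e))) = (r * j) • f + (-r * β) • e by
        module, EqR.nsq fe', f1, e1]
    linear_combination r ^ 2 * hβ + hj
  · rw [add_sub_add_left_eq_sub]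
    refine lt_of_pow_lt_pow_left₀ 2 (norm_nonneg _) ?_
    rw [norm_sub_sq_real, y2, inner_add_left, real_inner_smul_left, real_inner_smul_left]
    rw [add_sub_cancel_left, add_assoc, add_sub_cancel_left] at hab
    have h1 := pow_le_pow_left₀ (norm_nonneg _) hab 2
    rw [norm_add_sq_real, real_inner_smul_left] at h1
    have h2 := mul_nonneg s0.le (show 0 ≤ 2 * (κ * ⟪w, δ⟫) + ‖δ‖ ^ 2 by linarith)
    have h3 := mul_nonneg r0.le (neg_nonneg.2 fδ)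
    have h4 := mul_pos (sub_pos.2 s1) (pow_pos δ0 2)
    linarith

end Pool.Agent.MP_66cee2_co.Q2
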