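import Pool.Agent.MP_66cee2_co.Q2.Spec

/-
Every point of a thick half circle has a unit neighbour in it.
-/

namespace Pool.Agent.MP_66cee2_co.Q2

open Set Metric Module Pool.Agent.MP_66cee2_co.X Pool.Agent.MP_66cee2_co.D
open Pool.Agent.MP_66cee2_co.TR Pool.Agent.MP_66cee2_co.Q
open scoped RealInnerProductSpace

theorem nb_perp {d : ℕ} (u w : E d) (M : Submodule ℝ (E d)) (ρ : ℝ) (hM : 2 ≤ finrank ℝ M)
    (hρ : 0 < ρ) (w0 : w ≠ 0) : ∃ v ∈ M, ⟪w, v⟫ = 0 ∧ ‖v‖ = ρ ∧ 0 ≤ ⟪v, u⟫ := by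
  have f1 := Submodule.finrank_add_finrank_orthogonal (ℝ ∙ w)
  have f2 := Submodule.finrank_sup_add_finrank_inf_eq M (ℝ ∙ w)ᗮ
  have f3 := Submodule.finrank_le (M ⊔ (ℝ ∙ w)ᗮ)
  rw [finrank_span_singleton w0] at f1
  have hne : M ⊓ (ℝ ∙ w)ᗮ ≠ ⊥ := by
    intro h
    rw [h, finrank_bot] at f2
    omega
  obtain ⟨x, hx, x0⟩ := Submodule.exists_mem_ne_zero_of_ne_bot hne
  have xw : ⟪w, x⟫ = 0 := Submodule.mem_orthogonal_singleton_iff_inner_right.1 hx.2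
  have xn : 0 < ‖x‖ := norm_pos_iff.2 x0
  have hn : ∀ s : ℝ, |s| = 1 → ‖(s * (ρ / ‖x‖)) • x‖ = ρ := fun s hs => by
    rw [norm_smul, Real.norm_eq_abs, abs_mul, hs, one_mul, abs_of_pos (div_pos hρ xn)]
    exact div_mul_cancel₀ _ xn.ne'
  have hp := div_pos hρ xn
  rcases le_total 0 ⟪x, u⟫ with h | h
  · refine ⟨_, M.smul_mem _ hx.1, ?_, hn 1 abs_one, ?_⟩
    · rw [real_inner_smul_right, xw, mul_zero]
    · rw [real_inner_smul_left]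
      nlinarith
  · refine ⟨_, M.smul_mem _ hx.1, ?_, hn (-1) (by simp), ?_⟩
    · rw [real_inner_smul_right, xw, mul_zero]
    · rw [real_inner_smul_left]
      nlinarith

theorem sNb : SNb := by
  rintro d o u M ρ η hM hρ h2 a ⟨w, wM, κ, wn, wu, k1, k2, rfl⟩
  have w0 : w ≠ 0 := by
    rintro rfl
    rw [norm_zero] at wn
    exact hρ.ne wn
  obtain ⟨v, vM, wv, vn, vu⟩ := nb_perp u w M ρ hM hρ w0
  have hk : 1 / 2 < κ ^ 2 * ρ ^ 2 := by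
    nlinarith [mul_nonneg (by nlinarith : 0 ≤ κ ^ 2 - 1) (sq_nonneg ρ)]
  obtain ⟨g, hg⟩ : ∃ g : ℝ, g = 1 / (2 * (κ ^ 2 * ρ ^ 2)) := ⟨_, rfl⟩
  have g0 : 0 < g := by
    rw [hg]
    positivity
  have g1 : g * (2 * (κ ^ 2 * ρ ^ 2)) = 1 := by
    rw [hg]
    exact one_div_mul_cancel (by positivity)
  have g2 : g < 1 := by nlinarith
  obtain ⟨β, b0, b2⟩ : ∃ β : ℝ, 0 ≤ β ∧ β ^ 2 = 1 - (1 - g) ^ 2 :=
    ⟨√(1 - (1 - g) ^ 2), Real.sqrt_nonneg _, Real.sq_sqrt (by nlinarith)⟩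
  have nn : ∀ s t : ℝ, ‖s • w + t • v‖ ^ 2 = (s ^ 2 + t ^ 2) * ρ ^ 2 := fun s t => by
    rw [norm_add_sq_real, real_inner_smul_left, real_inner_smul_right, wv, norm_smul, norm_smul,
      wn, vn, Real.norm_eq_abs, Real.norm_eq_abs, mul_pow, mul_pow, sq_abs, sq_abs]
    ring
  refine ⟨o + κ • ((1 - g) • w + β • v), ⟨_, M.add_mem (M.smul_mem _ wM) (M.smul_mem _ vM), κ,
    ?_, ?_, k1, k2, rfl⟩, ?_⟩
  · refine (pow_left_inj₀ (norm_nonneg _) hρ.le two_ne_zero).1 ?_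
    rw [nn, b2]
    ring
  · rw [inner_add_left, real_inner_smul_left, real_inner_smul_left]
    exact add_nonneg (mul_nonneg (by linarith) wu) (mul_nonneg b0 vu)
  · have e : o + κ • ((1 - g) • w + β • v) - (o + κ • w) = (-(κ * g)) • w + (κ * β) • v := by
      module
    refine (pow_left_inj₀ (norm_nonneg _) zero_le_one two_ne_zero).1 ?_
    rw [e, nn, mul_pow κ β, b2]
    linear_combination g1

end Pool.Agent.MP_66cee2_co.Q2
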