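import Pool.Agent.MP_66cee2_co.Q2.Spec

/-
A unit neighbour of a point can be moved into one of the two lunes.
-/

namespace Pool.Agent.MP_66cee2_co.Q2

open Set Metric Filter Topology Pool.Agent.MP_66cee2_co.X Pool.Agent.MP_66cee2_co.TR
open scoped RealInnerProductSpace

namespace Ptx

theorem exists_eps {d : ℕ} {B : Set (E d)} (hB : IsOpen B) {y : E d} (hy : y ∈ B) (v : E d) :
    ∃ ε : ℝ, 0 < ε ∧ ε < 1 ∧ y + ε • v ∈ B := by
  have hc : Continuous fun ε : ℝ => y + ε • v := by fun_prop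
  have h1 : ∀ᶠ ε : ℝ in 𝓝 0, y + ε • v ∈ B :=
    hc.continuousAt.preimage_mem_nhds (hB.mem_nhds (by simpa using hy))
  have h2 : ∀ᶠ ε : ℝ in 𝓝 0, ε < 1 := gt_mem_nhds one_pos
  have h3 : ∀ᶠ ε : ℝ in 𝓝[>] 0, 0 < ε := self_mem_nhdsWithin
  obtain ⟨ε, a1, a2, a3⟩ := (h3.and ((h2.and h1).filter_mono nhdsWithin_le_nhds)).exists
  exact ⟨ε, a1, a2, a3⟩

theorem sq_comb {d : ℕ} (p q : E d) (hp : ‖p‖ = 1) (hq : ‖q‖ = 1) (s : ℝ) :
    ‖p + s • (q - p)‖ ^ 2 = 1 - s * (1 - s) * ‖q - p‖ ^ 2 := by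
  rw [norm_add_sq_real, norm_smul, mul_pow, Real.norm_eq_abs, sq_abs, inner_smul_right,
    inner_sub_right, real_inner_self_eq_norm_sq, norm_sub_sq_real, real_inner_comm p q, hp, hq]
  ring

end Ptx

theorem sPt : SPt := by
  intro d B a b y hB hab hy ha
  rcases lt_trichotomy ‖y - b‖ 1 with h | h | h
  · obtain ⟨ε, e1, -, e3, e4⟩ := Ptx.exists_eps (B := B ∩ {z | ‖z - b‖ < 1})
      (hB.inter (isOpen_lt (by fun_prop) continuous_const)) ⟨hy, h⟩ (y - a)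
    refine ⟨_, e3, Or.inl ⟨e4, ?_⟩⟩
    have e : y + ε • (y - a) - a = (1 + ε) • (y - a) := by module
    rw [e, norm_smul, ha, Real.norm_of_nonneg (by linarith)]
    linarith
  · obtain ⟨ε, e1, e2, e3⟩ := Ptx.exists_eps hB hy (a - b)
    have hn : 0 < ‖(y - b) - (y - a)‖ ^ 2 := by
      have : (y - b) - (y - a) = a - b := by abel
      rw [this]
      exact pow_pos (norm_pos_iff.2 (sub_ne_zero.2 hab)) 2
    refine ⟨_, e3, Or.inr ⟨?_, ?_⟩⟩
    · have e : y + ε • (a - b) - a = (y - a) + ε • ((y - b) - (y - a)) := by module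
      have h1 := Ptx.sq_comb _ _ ha h ε
      rw [e]
      refine lt_of_pow_lt_pow_left₀ 2 zero_le_one ?_
      rw [h1]
      nlinarith [mul_pos (mul_pos e1 (sub_pos.2 e2)) hn]
    · have e : y + ε • (a - b) - b = (y - a) + (1 + ε) • ((y - b) - (y - a)) := by module
      have h1 := Ptx.sq_comb _ _ ha h (1 + ε)
      rw [e]
      refine lt_of_pow_lt_pow_left₀ 2 (norm_nonneg _) ?_
      rw [h1]
      nlinarith [mul_pos (mul_pos e1 (add_pos one_pos e1)) hn]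
  · obtain ⟨ε, e1, e2, e3, e4⟩ := Ptx.exists_eps (B := B ∩ {z | 1 < ‖z - b‖})
      (hB.inter (isOpen_lt continuous_const (by fun_prop))) ⟨hy, h⟩ (a - y)
    refine ⟨_, e3, Or.inr ⟨?_, e4⟩⟩
    have e : y + ε • (a - y) - a = (1 - ε) • (y - a) := by module
    rw [e, norm_smul, ha, Real.norm_of_nonneg (by linarith)]
    linarith

end Pool.Agent.MP_66cee2_co.Q2
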