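import Pool.Agent.MP_66cee2_co.Q2.Spec

/-
Row Sh: a side of an equilateral triangle is shifted into the two lunes.
-/

namespace Pool.Agent.MP_66cee2_co.Q2

open Set Metric Filter Topology Pool.Agent.MP_66cee2_co.X Pool.Agent.MP_66cee2_co.TR
open scoped RealInnerProductSpace

namespace Shx

variable {d : ℕ}

theorem opn {U : Set (E d)} (hU : IsOpen U) {x : E d} (hx : x ∈ U) (t : E d) :
    ∀ᶠ ε in 𝓝[>] (0 : ℝ), x + ε • t ∈ U := by
  have c : Continuous fun ε : ℝ => x + ε • t := by fun_prop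
  exact mem_nhdsWithin_of_mem_nhds ((hU.preimage c).mem_nhds (by simpa using hx))

theorem sq (x c t : E d) (ε : ℝ) :
    ‖x + ε • t - c‖ ^ 2 = ‖x - c‖ ^ 2 + ε * (2 * ⟪x - c, t⟫ + ε * ‖t‖ ^ 2) := by
  rw [show x + ε • t - c = x - c + ε • t by abel, norm_add_sq_real, inner_smul_right, norm_smul,
    mul_pow, Real.norm_eq_abs, sq_abs]
  ring

theorem lt1 {x c t : E d} (h : ‖x - c‖ = 1) (ht : ⟪x - c, t⟫ < 0) :
    ∀ᶠ ε in 𝓝[>] (0 : ℝ), ‖x + ε • t - c‖ < 1 := by
  have c1 : Continuous fun ε : ℝ => 2 * ⟪x - c, t⟫ + ε * ‖t‖ ^ 2 := by fun_prop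
  have e : ∀ᶠ ε in 𝓝 (0 : ℝ), 2 * ⟪x - c, t⟫ + ε * ‖t‖ ^ 2 < 0 :=
    (isOpen_lt c1 continuous_const).mem_nhds (by
      show 2 * ⟪x - c, t⟫ + 0 * ‖t‖ ^ 2 < 0
      linarith)
  filter_upwards [mem_nhdsWithin_of_mem_nhds e, self_mem_nhdsWithin] with ε h1 h2
  have h3 := sq x c t ε
  have h4 := mul_neg_of_pos_of_neg (show 0 < ε from h2) h1
  rw [h] at h3
  nlinarith [norm_nonneg (x + ε • t - c)]

theorem gt1 {x c t : E d} (h : ‖x - c‖ = 1) (ht : 0 < ⟪x - c, t⟫) :
    ∀ᶠ ε in 𝓝[>] (0 : ℝ), 1 < ‖x + ε • t - c‖ := by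
  filter_upwards [self_mem_nhdsWithin] with ε h2
  have h3 := sq x c t ε
  have e0 : 0 < ε := h2
  have h4 : 0 < ε * (2 * ⟪x - c, t⟫ + ε * ‖t‖ ^ 2) := by positivity
  rw [h] at h3
  nlinarith [norm_nonneg (x + ε • t - c)]

theorem far (c : E d) : IsOpen {x : E d | 1 < ‖x - c‖} :=
  isOpen_lt continuous_const (by fun_prop)

theorem near (c : E d) : IsOpen {x : E d | ‖x - c‖ < 1} :=
  isOpen_lt (by fun_prop) continuous_const

end Shx

open Shx in
theorem sSh : SSh := by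
  intro d B a b y z hB ab hy hz yb zb yz ya
  have pq : ⟪y - b, z - b⟫ = 1 / 2 := by
    have := norm_sub_sq_real (y - b) (z - b)
    rw [sub_sub_sub_cancel_right, yz, yb, zb] at this
    linarith
  have pp : ⟪y - b, y - b⟫ = 1 := by rw [real_inner_self_eq_norm_sq, yb, one_pow]
  have qq : ⟪z - b, z - b⟫ = 1 := by rw [real_inner_self_eq_norm_sq, zb, one_pow]
  have qp : ⟪z - b, y - b⟫ = 1 / 2 := by rw [real_inner_comm, pq]
  obtain ⟨t, t1, t2⟩ : ∃ t : E d, ⟪y - b, t⟫ < 0 ∧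
      ∀ᶠ ε in 𝓝[>] (0 : ℝ), z + ε • t ∈ Lune a b ∪ Lune b a := by
    rcases lt_trichotomy ‖z - a‖ 1 with h | h | h
    · refine ⟨(z - b) - (y - b), by rw [inner_sub_right, pq, pp]; norm_num, ?_⟩
      filter_upwards [opn (near a) h ((z - b) - (y - b)),
        gt1 (t := (z - b) - (y - b)) zb (by rw [inner_sub_right, qp, qq]; norm_num)] with ε h1 h2
      exact Or.inr ⟨h1, h2⟩
    · have n0 : 0 < ‖a - b‖ ^ 2 := pow_pos (norm_pos_iff.2 (sub_ne_zero.2 ab)) 2
      have e1 : ⟪z - b, a - b⟫ = ‖a - b‖ ^ 2 / 2 := by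
        have := norm_sub_sq_real (z - b) (a - b)
        rw [sub_sub_sub_cancel_right, h, zb] at this
        linarith
      have e2 : ⟪z - a, a - b⟫ = -(‖a - b‖ ^ 2 / 2) := by
        rw [show z - a = z - b - (a - b) by abel, inner_sub_left, e1, real_inner_self_eq_norm_sq]
        ring
      have e3 : |⟪z - a, y - b⟫| ≤ 1 := by
        have := abs_real_inner_le_norm (z - a) (y - b)
        rwa [h, yb, one_mul] at this
      obtain ⟨e4, e5⟩ := abs_le.1 e3
      rcases le_total ⟪y - b, a - b⟫ 0 with g | g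
      · refine ⟨(a - b) - (‖a - b‖ ^ 2 / 4) • (y - b), ?_, ?_⟩
        · rw [inner_sub_right, inner_smul_right, pp]
          linarith
        · filter_upwards [lt1 (t := (a - b) - (‖a - b‖ ^ 2 / 4) • (y - b)) h (by
              rw [inner_sub_right, inner_smul_right, e2]
              nlinarith),
            gt1 (t := (a - b) - (‖a - b‖ ^ 2 / 4) • (y - b)) zb (by
              rw [inner_sub_right, inner_smul_right, e1, qp]
              linarith)] with ε h1 h2
          exact Or.inr ⟨h1, h2⟩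
      · refine ⟨-(a - b) - (‖a - b‖ ^ 2 / 4) • (y - b), ?_, ?_⟩
        · rw [inner_sub_right, inner_neg_right, inner_smul_right, pp]
          linarith
        · filter_upwards [lt1 (t := -(a - b) - (‖a - b‖ ^ 2 / 4) • (y - b)) zb (by
              rw [inner_sub_right, inner_neg_right, inner_smul_right, e1, qp]
              linarith),
            gt1 (t := -(a - b) - (‖a - b‖ ^ 2 / 4) • (y - b)) h (by
              rw [inner_sub_right, inner_neg_right, inner_smul_right, e2]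
              nlinarith)] with ε h1 h2
          exact Or.inl ⟨h1, h2⟩
    · refine ⟨-(y - b), by rw [inner_neg_right, pp]; norm_num, ?_⟩
      filter_upwards [opn (far a) h (-(y - b)),
        lt1 (t := -(y - b)) zb (by rw [inner_neg_right, qp]; norm_num)] with ε h1 h2
      exact Or.inl ⟨h2, h1⟩
  obtain ⟨ε, a1, a2, a3, a4, a5⟩ := ((opn hB hy t).and ((opn hB hz t).and ((lt1 yb t1).and
    ((opn (far a) ya t).and t2)))).exists
  exact ⟨_, ⟨a1, Or.inl ⟨a3, a4⟩⟩, _, ⟨a2, a5⟩, by rwa [add_sub_add_right_eq_sub]⟩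

end Pool.Agent.MP_66cee2_co.Q2
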