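import Pool.Agent.MP_66cee2_co.Q.Spec

/-
One more dimension at the end of the chain of hemispheres.
-/

namespace Pool.Agent.MP_66cee2_co.Q2

open Set Metric Module Pool.Agent.MP_66cee2_co.X Pool.Agent.MP_66cee2_co.D
open Pool.Agent.MP_66cee2_co.TR Pool.Agent.MP_66cee2_co.Q
open scoped RealInnerProductSpace

/-- row Pt: a unit neighbour of `a` can be moved into one of the two lunes. -/
def SPt : Prop :=
  ∀ (d : ℕ) (B : Set (E d)) (a b y : E d), IsOpen B → a ≠ b → y ∈ B → ‖y - a‖ = 1 →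
    (B ∩ (Lune a b ∪ Lune b a)).Nonempty

/-- row Nb: every point of a thick half circle has a unit neighbour in it. -/
def SNb : Prop :=
  ∀ (d : ℕ) (o u : E d) (M : Submodule ℝ (E d)) (ρ η : ℝ), 2 ≤ finrank ℝ M → 0 < ρ →
    1 / 2 < ρ ^ 2 → ∀ a ∈ Shell o u M ρ η, ∃ y ∈ Shell o u M ρ η, ‖y - a‖ = 1

/-- row Eq: an equilateral triangle at the inner point, one vertex far from the outer point. -/
def SEq : Prop :=
  ∀ (d : ℕ) (o u : E d) (M : Submodule ℝ (E d)) (ρ η : ℝ), 3 ≤ finrank ℝ M → 0 < ρ →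
    1 / 2 < ρ ^ 2 → ∀ a ∈ Shell o u M ρ η, ∀ b ∈ Shell o u M ρ η, a ≠ b → ‖b - o‖ ≤ ‖a - o‖ →
    ∃ y ∈ Shell o u M ρ η, ∃ z ∈ Shell o u M ρ η,
      ‖y - b‖ = 1 ∧ ‖z - b‖ = 1 ∧ ‖y - z‖ = 1 ∧ 1 < ‖y - a‖

/-- row Sh: the opposite side of the triangle can be shifted into the two lunes. -/
def SSh : Prop :=
  ∀ (d : ℕ) (B : Set (E d)) (a b y z : E d), IsOpen B → a ≠ b → y ∈ B → z ∈ B → ‖y - b‖ = 1 →
    ‖z - b‖ = 1 → ‖y - z‖ = 1 → 1 < ‖y - a‖ →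
    ∃ y' ∈ B ∩ (Lune a b ∪ Lune b a), ∃ z' ∈ B ∩ (Lune a b ∪ Lune b a), ‖y' - z'‖ = 1

/-- row Un: a unit pair ends the count. -/
def SUn : Prop :=
  ∀ (d n c : ℕ) (O : (Ix n → ℝ) → Set (E d)) (B : Set (E d)) (W : Submodule ℝ (Ix n → ℝ))
    (y z : E d), Fam O → IsOpen B → Lab O B W → Su c W → y ∈ B → z ∈ B → ‖y - z‖ = 1 → c ≤ n

/-- the topological theorem from dimension four on. -/
def STQ4 : Prop :=
  ∀ (d n : ℕ) (O : (Ix n → ℝ) → Set (E d)), 4 ≤ d → 4 * n + 3 ≤ d ^ 2 + 6 * d → ¬ Fam O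

theorem lab_union {d n : ℕ} {O : (Ix n → ℝ) → Set (E d)} {B P P' : Set (E d)}
    {W : Submodule ℝ (Ix n → ℝ)} (h : Lab O (B ∩ P) W) (h' : Lab O (B ∩ P') W) :
    Lab O (B ∩ (P ∪ P')) W := fun v y hy hb =>
  hb.2.elim (fun e => h v y hy ⟨hb.1, e⟩) fun e => h' v y hy ⟨hb.1, e⟩

theorem sTQ4_of (h0 : SAlg) (h2 : SMove) (h3 : SFold) (h4 : SSec) (h5 : SPt) (h6 : SNb)
    (h7 : SEq) (h8 : SSh) (h9 : SUn) : STQ4 := by
  intro d n O hd hn hO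
  have op : ∀ (B : Set (E d)) (a b : E d), IsOpen B → IsOpen (B ∩ (Lune a b ∪ Lune b a)) :=
    fun B a b hB => hB.inter ((isOpen_lune a b).union (isOpen_lune b a))
  have step : ∀ (c s s' : ℕ) (B : Set (E d)) (W : Submodule ℝ (Ix n → ℝ)), 1 ≤ s → IsOpen B →
      Lab O B W → Su c W → Rdy B s s' → ∃ (B' : Set (E d)) (W' : Submodule ℝ (Ix n → ℝ)),
        IsOpen B' ∧ Lab O B' W' ∧ Su (c + s) W' ∧ Hem B' s' := by
    intro c s s' B W hs hB hL hS ⟨o, u, M, ρ, η, a1, a2, a3, a4, a5, a6⟩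
    obtain ⟨W', a, ha, b, hb, ab, b1, b2, b3⟩ :=
      h3 d n c s O B W o u M ρ η hO hB hL hS hs a1 a2 a3 a4 a5
    rcases a6 a ha b hb ab with h | h
    · exact ⟨_, W', hB.inter (isOpen_lune a b), b2, b1, h⟩
    · exact ⟨_, W', hB.inter (isOpen_lune b a), b3, b1, h⟩
  have two : ∀ (c : ℕ) (B : Set (E d)) (W : Submodule ℝ (Ix n → ℝ)), IsOpen B → Lab O B W →
      Su c W → Hem B 2 → c + 2 ≤ n + 1 := by
    intro c B W hB hL hS hH
    obtain ⟨o, u, M, ρ, η, a1, a2, a3, a4, a5, -⟩ := h2.1 d 2 B hB hH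
    obtain ⟨W', a, ha, b, hb, ab, b1, b2, b3⟩ :=
      h3 d n c 2 O B W o u M ρ η hO hB hL hS (by omega) a1 a2 a3 a4 a5
    obtain ⟨y, hy, e⟩ := h6 d o u M ρ η a1 a2 a3 a ha
    obtain ⟨x, hxB, hx⟩ := hO.dense.inter_open_nonempty _ (op B a b hB)
      (h5 d B a b y hB ab (a5 hy) e)
    obtain ⟨w, hw⟩ := mem_iUnion.1 hx
    exact h0.2 n _ W' w b1 (lab_union b2 b3 w x hw hxB) (hO.pos w ⟨x, hw⟩)
  have three : ∀ (c : ℕ) (B : Set (E d)) (W : Submodule ℝ (Ix n → ℝ)), IsOpen B → Lab O B W →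
      Su c W → Hem B 3 → c + 3 ≤ n := by
    intro c B W hB hL hS hH
    obtain ⟨o, u, M, ρ, η, a1, a2, a3, a4, a5, -⟩ := h2.1 d 3 B hB hH
    obtain ⟨W', a, ha, b, hb, ab, b1, b2, b3⟩ :=
      h3 d n c 3 O B W o u M ρ η hO hB hL hS (by omega) a1 a2 a3 a4 a5
    rcases le_total ‖b - o‖ ‖a - o‖ with h | h
    · obtain ⟨y, hy, z, hz, e1, e2, e3, e4⟩ := h7 d o u M ρ η a1 a2 a3 a ha b hb ab h
      obtain ⟨y', hy', z', hz', e⟩ := h8 d B a b y z hB ab (a5 hy) (a5 hz) e1 e2 e3 e4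
      exact h9 d n _ O _ W' y' z' hO (op B a b hB) (lab_union b2 b3) b1 hy' hz' e
    · obtain ⟨y, hy, z, hz, e1, e2, e3, e4⟩ := h7 d o u M ρ η a1 a2 a3 b hb a ha ab.symm h
      obtain ⟨y', hy', z', hz', e⟩ := h8 d B b a y z hB ab.symm (a5 hy) (a5 hz) e1 e2 e3 e4
      exact h9 d n _ O _ W' y' z' hO (op B b a hB) (lab_union b3 b2) b1 hy' hz' e
  have main : ∀ (s c : ℕ) (B : Set (E d)) (W : Submodule ℝ (Ix n → ℝ)), IsOpen B → Lab O B W →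
      Su c W → Hem B (s + 2) → 4 * c + (s + 3) ^ 2 ≤ 4 * n + 7 := by
    intro s
    induction s using Nat.strong_induction_on with
    | _ s ih =>
      intro c B W hB hL hS hH
      rcases s with _ | _ | s
      · have := two c B W hB hL hS hH
        omega
      · have := three c B W hB hL hS hH
        omega
      · obtain ⟨B', W', b1, b2, b3, b4⟩ :=
          step c (s + 1 + 1 + 2) _ B W (by omega) hB hL hS (h2.1 d _ B hB hH)
        have := ih s (by omega) _ B' W' b1 b2 b3 b4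
        nlinarith
  obtain ⟨B, W, b1, b2, b3, b4⟩ := h4 d n O (by omega) hO
  obtain ⟨e, rfl⟩ : ∃ e, d = e + 4 := ⟨d - 4, by omega⟩
  obtain ⟨B', W', c1, c2, c3, c4⟩ :=
    step (e + 4 + 2) (e + 4 - 1) _ B W (by omega) b1 b2 b3 (h2.2 _ _ B b1 b4)
  have := main e _ B' W' c1 c2 c3 c4
  rw [show e + 4 - 1 = e + 3 by omega] at this
  nlinarith

end Pool.Agent.MP_66cee2_co.Q2
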