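import Pool.Agent.MP_66cee2_co.Q2.Spec
import Pool.Agent.MP_66cee2_co.TR.Alg
import Pool.Agent.MP_66cee2_co.Q.Rel

/-
Row Un: a unit pair ends the count.
-/

namespace Pool.Agent.MP_66cee2_co.Q2

open Set Metric Module Pool.Agent.MP_66cee2_co.X Pool.Agent.MP_66cee2_co.D
open Pool.Agent.MP_66cee2_co.TR Pool.Agent.MP_66cee2_co.Q

theorem sUn : SUn := by
  intro d n c O B W y z hO hB hL hS hy hz e
  have c1 : Continuous fun x : E d => x - (y - z) := by fun_prop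
  have c2 : Continuous fun x : E d => x + (y - z) := by fun_prop
  obtain ⟨y₁, ⟨a1, a2⟩, a3⟩ := hO.dense.inter_open_nonempty _ (hB.inter (hB.preimage c1))
    ⟨y, hy, by simpa using hz⟩
  obtain ⟨q, hq⟩ := mem_iUnion.1 a3
  obtain ⟨z₁, ⟨b1, b2, b3⟩, b4⟩ := hO.dense.inter_open_nonempty _
    (hB.inter (((hO.opn q).inter hB).preimage c2))
    ⟨y₁ - (y - z), a2, by simpa using hq, by simpa using a1⟩
  obtain ⟨q', hq'⟩ := mem_iUnion.1 b4
  have h0 : lz q q' = 0 := hO.orth q q' _ _ b2 hq' (by rw [add_sub_cancel_left, e])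
  have p1 := hO.pos q ⟨_, hq⟩
  have p2 := hO.pos q' ⟨_, hq'⟩
  have m1 : q ∈ W := hL q _ hq a1
  have h := sRel.2 n _ _ (sAlg.1 n c W q q' hS m1 (hL q' _ hq' b1) p1 p2 fun ⟨t, t0, ht⟩ => ?_)
  · omega
  · have := ht q m1
    rw [h0] at this
    exact mul_ne_zero t0 p1.ne' this.symm

end Pool.Agent.MP_66cee2_co.Q2
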